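import Pool.Agent.Helper56_MG.Stmts
import Pool.Agent.Helper56_MG.Base3

/-!
# ASM: assembly of interpretations along a cofinal sequence
-/

open Set

namespace Pool.Agent.MG.H29

open Pool.Agent.MG

variable {I : Type} [Idx I]

/-- Data in the hull. -/
def InH (N : Set (Cond I)) (Y : Set (Dat I)) (𝔡 : Dat I) : Prop :=
  𝔡 ∈ Y ∧ 𝔡.r ∈ N ∧ ∀ k, ∀ y ∈ 𝔡.r.body, 𝔡.e k y ∈ N

/-- The conclusion of the density lemma. -/
def DLc (β α α' : I) (f : Pt I → Set ℕ) (i : Bool) (𝔡 : Dat I) (r : Cond I) (C : Set ℕ)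
    (D : ℕ → Pt I → Dat I) : Prop :=
  (∀ j, MeasC (D j) ∧ Dep α (D j)) ∧ ∀ y ∈ r.body,
    (∀ j, (D j y).Ok I β α' f i ∧ (D j y).Bel I (𝔡.e j y) ∧
      y ∈ ((D j y).r.restr α).body ∧ (C \ (D j y).C).Finite) ∧
    ∀ m, ∃ j, m ≤ j ∧ ∀ b ∈ C, j ≤ b → b ∈ (D j y).C

/-- The rules of the hull. -/
def Rule (β : I) (α : ℕ → I) (f : Pt I → Set ℕ) (i : Bool) (p : Cond I) (n : ℕ)
    (l : List (Cond I ⊕ Dat I)) (O : Set (Cond I ⊕ Dat I)) (C : Set ℕ) : Prop :=
  ∀ e 𝔡, l = [Sum.inl e, Sum.inr 𝔡] → 𝔡.Ok I β (α n) f i → 𝔡.Bel I p →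
    (C ∩ 𝔡.C).Finite ∨ ∃ e', Sum.inl e' ∈ O ∧ e' ≤ e ∧
      (Disjoint (e'.restr (α n)).body 𝔡.r.body ∨
        ∃ r D, e'.restr (α n) ≤ r ∧ DLc β (α n) (α (n + 1)) f i 𝔡 r C D ∧
          ∀ y ∈ r.body, ∀ j, Sum.inr (D j y) ∈ O ∧ Sum.inl (D j y).r ∈ O ∧
            ∀ k, ∀ y' ∈ (D j y).r.body, Sum.inl ((D j y).e k y') ∈ O)

/-- The rules can be satisfied. -/
theorem rule_exists (hProp : PropStmt I) (hCst2 : Cst2Stmt I) (hDl : DlStmt I)
    {β : I} {α : ℕ → I} (hα : ∀ n, α n < α (n + 1)) (hβ : ∀ n, α n < β)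
    (hRp : ∀ n, Rp I (α n)) {f : Pt I → Set ℕ} (hf : Measurable f) (hfd : Dep β f)
    {p : Cond I} (hp : VB β p) {C : Set ℕ} (hC : C.Infinite) {i : Bool}
    (hS : ∀ n, Star I β (α n) f p C i) (n : ℕ) (l : List (Cond I ⊕ Dat I))
    (hl : ∀ e, Sum.inl e ∈ l → VB β e) (C' : Set ℕ) (hC' : C' ⊆ C) (hi : C'.Infinite) :
    ∃ O : Set (Cond I ⊕ Dat I), O.Countable ∧ (∀ e, Sum.inl e ∈ O → VB β e) ∧
      ∃ C'' ⊆ C', C''.Infinite ∧ Rule β α f i p n l O C'' := by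
  by_cases h : ∃ e 𝔡, l = [Sum.inl e, Sum.inr 𝔡] ∧ 𝔡.Ok I β (α n) f i ∧ 𝔡.Bel I p ∧
      (C' ∩ 𝔡.C).Infinite
  · obtain ⟨e, 𝔡, rfl, hok, hbel, hinf⟩ := h
    have he : VB β e := hl e (by simp)
    have hres : VB (α n) (e.restr (α n)) := he.restr (α n)
    obtain ⟨r1, hr1, hv1, hdec⟩ := (hCst2 (α n) (hProp (α n)).1 (hProp (α n)).2.1).2.2.2
      (e.restr (α n)) 𝔡.r hres hok.vr
    have hr1b : r1.restr (α n) = r1 := hv1.below.restr_eq
    rcases hdec with hle | hdis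
    · obtain ⟨r'', hr'', hv'', C'', hC'', hinf'', D, hD⟩ := hDl β (α n) (α (n + 1)) (hα n)
        (hβ (n + 1)) (hRp n) f hf hfd p hp C hC i (hS (n + 1)) 𝔡 hok hbel r1 hv1 hle
        (C' ∩ 𝔡.C) (Set.inter_subset_left.trans hC') hinf
      have hrb : r''.restr (α n) = r'' := hv''.below.restr_eq
      have hrle : r''.restr (α n) ≤ e.restr (α n) := by
        rw [hrb]; exact le_trans hr'' hr1
      refine ⟨{Sum.inl (Cond.glue r'' e (α n))} ∪
        ((⋃ j, (fun 𝔢 => (Sum.inr 𝔢 : Cond I ⊕ Dat I)) '' (D j '' r''.body)) ∪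
        ((⋃ j, (fun 𝔢 : Dat I => (Sum.inl 𝔢.r : Cond I ⊕ Dat I)) '' (D j '' r''.body)) ∪
        (⋃ j, ⋃ 𝔢 ∈ (D j '' r''.body), ⋃ k, (fun c => (Sum.inl c : Cond I ⊕ Dat I)) ''
          (𝔢.e k '' 𝔢.r.body)))), ?_, ?_, C'', hC''.trans Set.inter_subset_left, hinf'', ?_⟩
      · have hcD : ∀ j, (D j '' r''.body).Countable := fun j =>
          (hD.1 j).1.2.mono (Set.image_subset_range _ _)
        refine (Set.countable_singleton _).union (Set.Countable.union ?_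
          (Set.Countable.union ?_ ?_))
        · exact Set.countable_iUnion fun j => (hcD j).image _
        · exact Set.countable_iUnion fun j => (hcD j).image _
        · refine Set.countable_iUnion fun j => ?_
          refine (hcD j).biUnion ?_
          rintro 𝔢 ⟨y, hy, rfl⟩
          refine Set.countable_iUnion fun k => Set.Countable.image ?_ _
          exact ((((hD.2 y hy).1 j).1.me k).1.2).mono (Set.image_subset_range _ _)
      · intro c hc
        rcases hc with hc | hc | hc | hc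
        · have : c = Cond.glue r'' e (α n) := by simpa using hc
          rw [this]
          exact VB.glue (hv''.mono le_rfl) he (hβ n).le hrle
        · simp only [Set.mem_iUnion, Set.mem_image] at hc
          obtain ⟨j, 𝔢, -, h⟩ := hc
          exact absurd h (by simp)
        · simp only [Set.mem_iUnion, Set.mem_image] at hc
          obtain ⟨j, 𝔢, ⟨y, hy, rfl⟩, h⟩ := hc
          have : c = (D j y).r := (Sum.inl.inj h).symm
          rw [this]
          exact ((hD.2 y hy).1 j).1.vr.mono (hβ (n + 1)).le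
        · simp only [Set.mem_iUnion, Set.mem_image] at hc
          obtain ⟨j, 𝔢, ⟨y, hy, rfl⟩, k, c', ⟨y', hy', rfl⟩, h⟩ := hc
          have : c = (D j y).e k y' := (Sum.inl.inj h).symm
          rw [this]
          exact (((hD.2 y hy).1 j).1.ve y' hy' k).1
      · intro e1 𝔡1 hl1 _ _
        obtain ⟨rfl, rfl⟩ : e = e1 ∧ 𝔡 = 𝔡1 := by simpa using hl1
        right
        refine ⟨Cond.glue r'' e (α n), Or.inl rfl, Cond.glue_le_right hrle, Or.inr
          ⟨r'', D, ?_, hD, ?_⟩⟩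
        · rw [Cond.glue_restr _ _ le_rfl, hrb]
        · intro y hy j
          refine ⟨?_, ?_, ?_⟩
          · refine Or.inr (Or.inl ?_)
            exact Set.mem_iUnion.2 ⟨j, D j y, ⟨y, hy, rfl⟩, rfl⟩
          · refine Or.inr (Or.inr (Or.inl ?_))
            exact Set.mem_iUnion.2 ⟨j, D j y, ⟨y, hy, rfl⟩, rfl⟩
          · intro k y' hy'
            refine Or.inr (Or.inr (Or.inr ?_))
            refine Set.mem_iUnion.2 ⟨j, Set.mem_biUnion (⟨y, hy, rfl⟩ : D j y ∈ D j '' r''.body) ?_⟩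
            exact Set.mem_iUnion.2 ⟨k, _, ⟨y', hy', rfl⟩, rfl⟩
    · have hrle : r1.restr (α n) ≤ e.restr (α n) := by
        rw [hr1b]; exact hr1
      refine ⟨{Sum.inl (Cond.glue r1 e (α n))}, Set.countable_singleton _, ?_, C', subset_rfl,
        hi, ?_⟩
      · intro c hc
        have : c = Cond.glue r1 e (α n) := by simpa using hc
        rw [this]
        exact VB.glue (hv1.mono le_rfl) he (hβ n).le hrle
      · intro e1 𝔡1 hl1 _ _
        obtain ⟨rfl, rfl⟩ : e = e1 ∧ 𝔡 = 𝔡1 := by simpa using hl1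
        right
        refine ⟨Cond.glue r1 e (α n), rfl, Cond.glue_le_right hrle, Or.inl ?_⟩
        rw [Cond.glue_restr _ _ le_rfl, hr1b]
        exact hdis
  · refine ⟨∅, Set.countable_empty, fun e he => absurd he (by simp), C', subset_rfl, hi, ?_⟩
    intro e 𝔡 hl1 hok hbel
    left
    by_contra hc
    exact h ⟨e, 𝔡, hl1, hok, hbel, hc⟩

/-- The dense sets of the assembly. -/
def Dl (β : I) (α : ℕ → I) (f : Pt I → Set ℕ) (i : Bool) (N : Set (Cond I)) (Y : Set (Dat I))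
    (B : Set ℕ) (n : ℕ) (𝔡 : Dat I) : Set (Cond I) :=
  {e' | Disjoint (e'.restr (α n)).body 𝔡.r.body ∨
    ∃ r D C', e'.restr (α n) ≤ r ∧ (B \ C').Finite ∧
      DLc β (α n) (α (n + 1)) f i 𝔡 r C' D ∧ ∀ y ∈ r.body, ∀ j, InH N Y (D j y)}

/-- State of the assembly. -/
structure Inv (β : I) (α : ℕ → I) (f : Pt I → Set ℕ) (i : Bool) (p : Cond I) (N : Set (Cond I))
    (Y : Set (Dat I)) (𝒟 : Set (Set (Cond I))) (B : Set ℕ) (n : ℕ)
    (s : Cond I × (Pt I → Dat I × ℕ)) : Prop where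
  vb : VB (α n) s.1
  mc : MeasC s.2
  dp : Dep (α n) s.2
  inh : ∀ y ∈ s.1.body, InH N Y (s.2 y).1
  ok : ∀ y ∈ s.1.body, (s.2 y).1.Ok I β (α n) f i
  bel : ∀ y ∈ s.1.body, (s.2 y).1.Bel I p
  mem : ∀ y ∈ s.1.body, y ∈ (s.2 y).1.r.body
  gen : ∀ y ∈ s.1.body, Gen I N 𝒟 (α n) y
  res : ∀ y ∈ s.1.body, ∀ b ∈ B, (s.2 y).2 ≤ b → b ∈ (s.2 y).1.C

/-- Relation between consecutive states. -/
def Rel (α : ℕ → I) (n : ℕ) (s s' : Cond I × (Pt I → Dat I × ℕ)) : Prop :=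
  Cond.Ext (α n) s.1 s'.1 ∧ ∀ y ∈ s'.1.body, (s.2 y).2 < (s'.2 y).2 ∧
    (s'.2 y).1.Bel I ((s.2 y).1.e (s'.2 y).2 y)

/-- One step of the assembly. -/
theorem step_exists (hHg : HgStmt I) (hClaim : ClaimStmt I) (hProp : PropStmt I)
    {β : I} {α : ℕ → I} (hα : ∀ n, α n < α (n + 1)) (hβ : ∀ n, α n < β)
    {f : Pt I → Set ℕ} {p : Cond I} {i : Bool}
    {N : Set (Cond I)} {Z : Set I} (hN : GoodN I β N Z) {𝒟 : Set (Set (Cond I))}
    (h𝒟 : GoodD I β N Z 𝒟) {Y : Set (Dat I)} (hY : Y.Countable) {B : Set ℕ} (hB : B.Infinite)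
    (hD : ∀ n, ∀ 𝔡 ∈ Y, 𝔡.Ok I β (α n) f i → 𝔡.Bel I p → (B ∩ 𝔡.C).Infinite →
      Dl β α f i N Y B n 𝔡 ∈ 𝒟) (n : ℕ)
    (s : Cond I × (Pt I → Dat I × ℕ)) (hs : Inv β α f i p N Y 𝒟 B n s) :
    ∃ s', Inv β α f i p N Y 𝒟 B (n + 1) s' ∧ Rel α n s s' := by
  classical
  obtain ⟨hG1, -, -, -⟩ := hHg β N Z 𝒟 hN h𝒟
  -- the property of the next data
  let P : Dat I × ℕ → Dat I × ℕ → Pt I → Prop := fun a x y =>
    a.1.Ok I β (α n) f i ∧ InH N Y x.1 ∧ x.1.Ok I β (α (n + 1)) f i ∧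
      x.1.Bel I (a.1.e x.2 y) ∧ y ∈ (x.1.r.restr (α n)).body ∧ a.2 < x.2 ∧
      ∀ b ∈ B, x.2 ≤ b → b ∈ x.1.C
  have hsel : ∀ a : Dat I × ℕ, ∃ c : Pt I → Dat I × ℕ, MeasC c ∧ DepOn (Set.Iio (α n)) c ∧
      ∀ y, (∃ x ∈ Y ×ˢ (Set.univ : Set ℕ), P a x y) → c y ∈ Y ×ˢ (Set.univ : Set ℕ) ∧
        P a (c y) y := by
    intro a
    have : Nonempty (Dat I × ℕ) := ⟨a⟩
    by_cases ha : a.1.Ok I β (α n) f i
    · refine exists_sel (Y ×ˢ (Set.univ : Set ℕ)) (hY.prod Set.countable_univ) (P a) ?_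
        (Set.Iio (α n)) ?_
      · intro x _
        have h1 : MeasurableSet {y | x.1.Bel I (a.1.e x.2 y)} :=
          (ha.me x.2).1.preimage {c | x.1.Bel I c}
        have h2 : MeasurableSet {y | y ∈ (x.1.r.restr (α n)).body} :=
          Cond.measurableSet_body _
        have h3 : {y | P a x y} = {y | x.1.Bel I (a.1.e x.2 y)} ∩
            ({y | y ∈ (x.1.r.restr (α n)).body} ∩ {y | InH N Y x.1 ∧
              x.1.Ok I β (α (n + 1)) f i ∧ a.2 < x.2 ∧ ∀ b ∈ B, x.2 ≤ b → b ∈ x.1.C}) := by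
          ext y
          simp only [P, Set.mem_ofPred_eq, Set.mem_inter_iff]
          tauto
        rw [h3]
        exact h1.inter (h2.inter (MeasurableSet.const _))
      · intro x _ y y' hyy
        have h1 : a.1.e x.2 y = a.1.e x.2 y' := (ha.me x.2).2 y y' hyy
        have h2 : y ∈ (x.1.r.restr (α n)).body ↔ y' ∈ (x.1.r.restr (α n)).body :=
          Cond.mem_restr_congr hyy
        simp only [P, h1, h2]
    · refine ⟨fun _ => a, measC_const _, fun _ _ _ => rfl, ?_⟩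
      rintro y ⟨x, -, hx⟩
      exact absurd hx.1 ha
  choose c hc1 hc2 hc3 using hsel
  let st : Pt I → Dat I × ℕ := fun y => c (s.2 y) y
  have hstm : MeasC st := MeasC.bindC hs.mc hc1
  have hstd : Dep (α n) st := by
    intro y y' hyy
    show c (s.2 y) y = c (s.2 y') y'
    rw [hs.dp y y' hyy, hc2 _ y y' hyy]
  -- existence of the next data
  have hex : ∀ y ∈ s.1.body, ∃ x ∈ Y ×ˢ (Set.univ : Set ℕ), P (s.2 y) x y := by
    intro y hy
    have h1 := hs.inh y hy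
    have h2 := hs.ok y hy
    have h3 := hs.bel y hy
    have h4 := hs.mem y hy
    have hinf : (B ∩ (s.2 y).1.C).Infinite := by
      have : B \ Set.Iio (s.2 y).2 ⊆ B ∩ (s.2 y).1.C := by
        rintro b ⟨hb, hb'⟩
        exact ⟨hb, hs.res y hy b hb (not_lt.1 hb')⟩
      exact (hB.sdiff (Set.finite_Iio _)).mono this
    obtain ⟨d, hdN, hdle, hdD, hyd⟩ := hs.gen y hy _ h1.2.1 (Cond.mem_restr_of_mem h4) _
      (hD n _ h1.1 h2 h3 hinf)
    rcases hdD with hdis | ⟨r, D, C', hrle, hfin, hDLc, hInH⟩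
    · exact absurd (Set.disjoint_left.1 hdis hyd) (not_not.2 h4)
    · have hyr : y ∈ r.body := hrle hyd
      obtain ⟨hj1, hj2⟩ := hDLc.2 y hyr
      obtain ⟨M, hM⟩ := hfin.bddAbove
      obtain ⟨j, hj, hjb⟩ := hj2 (max ((s.2 y).2 + 1) (M + 1))
      refine ⟨(D j y, j), ⟨(hInH y hyr j).1, trivial⟩, h2, hInH y hyr j, (hj1 j).1, (hj1 j).2.1,
        (hj1 j).2.2.1, ?_, ?_⟩
      · have := le_max_left ((s.2 y).2 + 1) (M + 1)
        show (s.2 y).2 < j
        omega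
      · intro b hb hjb'
        have hbC : b ∈ C' := by
          by_contra hc
          have := hM ⟨hb, hc⟩
          have h5 := le_max_right ((s.2 y).2 + 1) (M + 1)
          have h6 : j ≤ b := hjb'
          omega
        exact hjb b hbC hjb'
  have hst : ∀ y ∈ s.1.body, P (s.2 y) (st y) y := fun y hy => (hc3 _ y (hex y hy)).2
  -- the condition to be extended
  let g : (Dat I × ℕ) × ℕ → Pt I → Cond I := fun x y =>
    if x.1.1.Ok I β (α n) f i then x.1.1.e x.2 y else p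
  have hg1 : ∀ x, MeasC (g x) := by
    intro x
    by_cases hx : x.1.1.Ok I β (α n) f i
    · simp only [g, hx, if_true]
      exact (hx.me x.2).1
    · simp only [g, hx, if_false]
      exact measC_const _
  have hg2 : ∀ x, Dep (α n) (g x) := by
    intro x
    by_cases hx : x.1.1.Ok I β (α n) f i
    · simp only [g, hx, if_true]
      exact (hx.me x.2).2
    · simp only [g, hx, if_false]
      exact fun _ _ _ => rfl
  let E : Pt I → Cond I := fun y => g (s.2 y, (st y).2) y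
  have hEm : MeasC E := MeasC.bindC (hs.mc.prodMk (hstm.comp (fun x => x.2))) hg1
  have hEd : Dep (α n) E := by
    intro y y' hyy
    show g (s.2 y, (st y).2) y = g (s.2 y', (st y').2) y'
    rw [hs.dp y y' hyy, hstd y y' hyy, hg2 _ y y' hyy]
  have hE : ∀ y ∈ s.1.body, E y = (s.2 y).1.e (st y).2 y := by
    intro y hy
    simp only [E, g, hs.ok y hy, if_true]
  let cc : Pt I → Cond I := fun y => Cond.glue (st y).1.r (E y) (α (n + 1))
  have hcm : MeasC cc :=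
    (hstm.prodMk hEm).comp (fun z : (Dat I × ℕ) × Cond I => Cond.glue z.1.1.r z.2 (α (n + 1)))
  have hcd : Dep (α n) cc := by
    intro y y' hyy
    show Cond.glue (st y).1.r (E y) _ = Cond.glue (st y').1.r (E y') _
    rw [hstd y y' hyy, hEd y y' hyy]
  have hEN : ∀ y ∈ s.1.body, E y ∈ N := by
    intro y hy
    rw [hE y hy]
    exact (hs.inh y hy).2.2 _ y (hs.mem y hy)
  have hccN : ∀ y ∈ s.1.body, cc y ∈ N := by
    intro y hy
    obtain ⟨-, h2, h3, h4, -, -, -⟩ := hst y hy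
    refine hN.glue _ (hβ (n + 1)) _ h2.2.1 _ (hEN y hy) ?_
    intro y' hy'
    rw [h3.vr.below.restr_eq] at hy'
    have h5 := (h3.ve y' hy' 0).2
    have h6 := h4 y' hy' 0
    rw [← hE y hy] at h6
    exact Cond.restr_mono h6 _ h5
  obtain ⟨q, hq1, hq2, hq3⟩ := hClaim β N Z 𝒟 hN h𝒟
    (fun ρ _ => ⟨(hProp ρ).1, (hProp ρ).2.1⟩) (α n) (α (n + 1)) (hβ n) (hα n).le
    (hβ (n + 1)).le s.1 hs.vb cc hcm hcd (by
      intro y hy
      refine ⟨hccN y hy, ?_, hs.gen y hy⟩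
      show y ∈ ((Cond.glue (st y).1.r (E y) (α (n + 1))).restr (α n)).body
      rw [Cond.glue_restr _ _ (hα n).le]
      exact (hst y hy).2.2.2.2.1)
  have hqs : ∀ y ∈ q.body, y ∈ s.1.body := fun y hy => hq2.le hs.vb.below hy
  refine ⟨(q, st), ⟨hq1, hstm, Dep.mono hstd (hα n).le, ?_, ?_, ?_, ?_, ?_, ?_⟩, hq2, ?_⟩
  · exact fun y hy => (hst y (hqs y hy)).2.1
  · exact fun y hy => (hst y (hqs y hy)).2.2.1
  · intro y hy y' hy' k
    have h1 := (hst y (hqs y hy)).2.2.2.1 y' hy' k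
    exact le_trans h1 (hs.bel y (hqs y hy) y (hs.mem y (hqs y hy)) _)
  · intro y hy
    have h1 := (hq3 y hy).1
    have h2 : ((cc y).restr (α (n + 1))) = (st y).1.r := by
      show (Cond.glue (st y).1.r (E y) (α (n + 1))).restr (α (n + 1)) = _
      rw [Cond.glue_restr _ _ le_rfl, (hst y (hqs y hy)).2.2.1.vr.below.restr_eq]
    rw [h2] at h1
    exact h1
  · intro y hy
    exact hG1 (α (n + 1)) (hβ (n + 1)) (cc y) (hccN y (hqs y hy)) y (hq3 y hy).1 (hq3 y hy).2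
  · intro y hy
    exact (hst y (hqs y hy)).2.2.2.2.2.2
  · intro y hy
    exact ⟨(hst y (hqs y hy)).2.2.2.2.2.1, (hst y (hqs y hy)).2.2.2.1⟩

/-- ASM. -/
theorem asm (hProp : PropStmt I) (hHull : HullStmt.{0} I) (hGd : GdStmt I) (hHg : HgStmt I)
    (hClaim : ClaimStmt I) (hCst2 : Cst2Stmt I) (hDl : DlStmt I) : AsmStmt I := by
  classical
  intro β α hα hβ hcof hRp f hf hfd p hp C hC i hS
  have hBC : ∀ ρ, ρ < β → BRw I ρ ∧ Cst I ρ := fun ρ _ => ⟨(hProp ρ).1, (hProp ρ).2.1⟩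
  obtain ⟨d0, hd0, hb0, hC0⟩ := hS 0 p hp le_rfl C subset_rfl hC
  -- the hull
  let W0 : Set (Cond I ⊕ Dat I) := {Sum.inl p} ∪ ({Sum.inr d0} ∪ ({Sum.inl d0.r} ∪
    (⋃ k, (fun c => (Sum.inl c : Cond I ⊕ Dat I)) '' (d0.e k '' d0.r.body))))
  have hW0c : W0.Countable := by
    refine (Set.countable_singleton _).union ((Set.countable_singleton _).union
      ((Set.countable_singleton _).union (Set.countable_iUnion fun k => Set.Countable.image ?_ _)))
    exact ((hd0.me k).1.2).mono (Set.image_subset_range _ _)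
  have hW0v : ∀ e, Sum.inl e ∈ W0 → VB β e := by
    intro e he
    rcases he with he | he | he | he
    · have : e = p := by simpa using he
      rw [this]; exact hp
    · exact absurd he (by simp)
    · have : e = d0.r := by simpa using he
      rw [this]; exact hd0.vr.mono (hβ 0).le
    · simp only [Set.mem_iUnion, Set.mem_image] at he
      obtain ⟨k, c, ⟨y, hy, rfl⟩, h⟩ := he
      have : e = d0.e k y := (Sum.inl.inj h).symm
      rw [this]
      exact (hd0.ve y hy k).1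
  obtain ⟨N, Z, Y, B, hN, hYc, hWN, hWY, hBC0, hBinf, hRu⟩ := hHull β hBC (Dat I) W0 hW0c hW0v
    d0.C hd0.inf (Rule β α f i p) (by
      intro n l hl C' hC' hi
      exact rule_exists hProp hCst2 hDl hα hβ hRp hf hfd hp hC hS n l hl C' (hC'.trans hC0) hi)
  -- the dense sets
  let 𝒟0 : Set (Set (Cond I)) := ⋃ n, (fun 𝔡 => Dl β α f i N Y B n 𝔡) ''
    {𝔡 | 𝔡 ∈ Y ∧ 𝔡.Ok I β (α n) f i ∧ 𝔡.Bel I p ∧ (B ∩ 𝔡.C).Infinite}
  have h𝒟0c : 𝒟0.Countable :=
    Set.countable_iUnion fun n => (hYc.mono fun 𝔡 h => h.1).image _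
  have h𝒟0d : ∀ D ∈ 𝒟0, ∀ e ∈ N, ∃ d ∈ N, d ≤ e ∧ d ∈ D := by
    intro D hD e he
    simp only [𝒟0, Set.mem_iUnion, Set.mem_image, Set.mem_ofPred_eq] at hD
    obtain ⟨n, 𝔡, ⟨hY, hok, hbel, hinf⟩, rfl⟩ := hD
    obtain ⟨O, hO1, hO2, C', hC', hC'inf, hfin, hrule⟩ := hRu n [Sum.inl e, Sum.inr 𝔡]
      (by
        intro e1 h1
        have : e1 = e := by simpa using h1
        rw [this]; exact he)
      (by
        intro x h1
        have : x = 𝔡 := by simpa using h1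
        rw [this]; exact hY)
    rcases hrule e 𝔡 rfl hok hbel with hf1 | ⟨e', he', hle, hor⟩
    · exfalso
      refine hinf ((hfin.union hf1).subset ?_)
      rintro b ⟨hb1, hb2⟩
      by_cases hb3 : b ∈ C'
      · exact Or.inr ⟨hb3, hb2⟩
      · exact Or.inl ⟨hb1, hb3⟩
    · refine ⟨e', hO1 e' he', hle, ?_⟩
      rcases hor with hdis | ⟨r, D, h1, h2, h3⟩
      · exact Or.inl hdis
      · refine Or.inr ⟨r, D, C', h1, hfin, h2, fun y hy j => ⟨?_, ?_, ?_⟩⟩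
        · exact hO2 _ (h3 y hy j).1
        · exact hO1 _ (h3 y hy j).2.1
        · exact fun k y' hy' => hO1 _ ((h3 y hy j).2.2 k y' hy')
  obtain ⟨𝒟, h𝒟sub, h𝒟⟩ := hGd β N Z hN 𝒟0 h𝒟0c h𝒟0d
  have hDmem : ∀ n, ∀ 𝔡 ∈ Y, 𝔡.Ok I β (α n) f i → 𝔡.Bel I p → (B ∩ 𝔡.C).Infinite →
      Dl β α f i N Y B n 𝔡 ∈ 𝒟 := by
    intro n 𝔡 h1 h2 h3 h4
    exact h𝒟sub (Set.mem_iUnion.2 ⟨n, 𝔡, ⟨h1, h2, h3, h4⟩, rfl⟩)
  obtain ⟨hG1, -, hG3, -⟩ := hHg β N Z 𝒟 hN h𝒟
  have hd0N : d0.r ∈ N := hWN _ (Or.inr (Or.inr (Or.inl rfl)))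
  have hd0In : InH N Y d0 := by
    refine ⟨hWY _ (Or.inr (Or.inl rfl)), hd0N, fun k y hy => hWN _ ?_⟩
    exact Or.inr (Or.inr (Or.inr (Set.mem_iUnion.2 ⟨k, _, ⟨y, hy, rfl⟩, rfl⟩)))
  -- the first step
  have hbt : ∀ y : Pt I, y ∈ (d0.r.restr bt).body := by
    intro y
    rw [Cond.mem_restr]
    intro j _ hj
    exact absurd hj (not_lt.2 (bt_le j))
  obtain ⟨q0, hq1, -, hq3⟩ := hClaim β N Z 𝒟 hN h𝒟 hBC bt (α 0) (lt_of_le_of_lt (bt_le _) (hβ 0))
    (bt_le _) (hβ 0).le (Cond.one I) (VB_one _) (fun _ => d0.r) (measC_const _)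
    (fun _ _ _ => rfl) (fun y _ => ⟨hd0N, hbt y, hG3 y⟩)
  have hinv0 : Inv β α f i p N Y 𝒟 B 0 (q0, fun _ => (d0, 0)) := by
    refine ⟨hq1, measC_const _, fun _ _ _ => rfl, fun _ _ => hd0In, fun _ _ => hd0,
      fun _ _ => hb0, ?_, ?_, fun _ _ b hb _ => hBC0 hb⟩
    · intro y hy
      have h1 := (hq3 y hy).1
      rw [hd0.vr.below.restr_eq] at h1
      exact h1
    · intro y hy
      exact hG1 (α 0) (hβ 0) d0.r hd0N y (hq3 y hy).1 (hq3 y hy).2
  -- the sequence of states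
  have hstep := step_exists hHg hClaim hProp hα hβ hN h𝒟 hYc hBinf hDmem
  choose F hF1 hF2 using hstep
  let S : (n : ℕ) → {s : Cond I × (Pt I → Dat I × ℕ) // Inv β α f i p N Y 𝒟 B n s} :=
    fun n => Nat.rec ⟨_, hinv0⟩ (fun n s => ⟨F n s.1 s.2, hF1 n s.1 s.2⟩) n
  have hSrel : ∀ n, Rel α n (S n).1 (S (n + 1)).1 := fun n => hF2 n (S n).1 (S n).2
  obtain ⟨q, hqb, hqE, hqS⟩ := Cond.exists_union β α (fun n => (hα n).le) (fun n => (hβ n).le)
    (fun n => (S n).1.1) (fun n => (S n).2.vb.below) (fun n => (hSrel n).1)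
  have hqV : VB β q := VB_union (fun n => (hα n).le) (fun n => (hβ n).le)
    (fun n => (S n).2.vb) hqb hqE hqS
  have hqn : ∀ n, ∀ y ∈ q.body, y ∈ ((S n).1.1).body := by
    intro n y hy
    have h1 : y ∈ (q.restr (α n)).body := Cond.mem_restr_of_mem hy
    rw [(hqE n).restr_eq, (S n).2.vb.below.restr_eq] at h1
    exact h1
  -- the conditions met by the points
  let E : ℕ → Pt I → Cond I := fun n y => ((S n).1.2 y).1.e ((S (n + 1)).1.2 y).2 y
  have hEdec : ∀ y ∈ q.body, ∀ n, E (n + 1) y ≤ E n y := by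
    intro y hy n
    have h1 := ((hSrel n).2 y (hqn _ y hy)).2
    exact h1 y ((S (n + 1)).2.mem y (hqn _ y hy)) _
  have hEdec' : ∀ y ∈ q.body, ∀ n m, n ≤ m → E m y ≤ E n y := by
    intro y hy n m hnm
    induction m, hnm using Nat.le_induction with
    | base => exact le_rfl
    | succ m _ ih => exact le_trans (hEdec y hy m) ih
  have hEV : ∀ y ∈ q.body, ∀ n, VB β (E n y) ∧ y ∈ ((E n y).restr (α n)).body := by
    intro y hy n
    exact ((S n).2.ok y (hqn n y hy)).ve y ((S n).2.mem y (hqn n y hy)) _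
  have hαm : StrictMono α := strictMono_nat_of_lt_succ hα
  have hEm : ∀ y ∈ q.body, ∀ n, y ∈ (E n y).body := by
    intro y hy n
    refine Cond.mem_body_of_restr (α := α) ?_ ?_
    · intro j hj
      exact hcof j ((hEV y hy n).1.below j hj)
    · intro m
      have h1 : y ∈ ((E (max n m) y).restr (α (max n m))).body := (hEV y hy _).2
      have h2 := Cond.restr_mono (hEdec' y hy n _ (le_max_left n m)) (α (max n m)) h1
      exact Cond.restr_le_restr _ (hαm.monotone (le_max_right n m)) h2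
  refine ⟨q, ?_, hqV, B, hBC0.trans hC0, hBinf, ?_⟩
  · intro y hy
    exact (S 0).2.bel y (hqn 0 y hy) y ((S 0).2.mem y (hqn 0 y hy)) _ (hEm y hy 0)
  · intro y hy b hb
    -- find the interval
    have hlt : ∀ n, ((S n).1.2 y).2 < ((S (n + 1)).1.2 y).2 := fun n =>
      ((hSrel n).2 y (hqn _ y hy)).1
    have hge : ∀ n, n ≤ ((S n).1.2 y).2 := by
      intro n
      induction n with
      | zero => exact Nat.zero_le _
      | succ n ih => exact lt_of_le_of_lt ih (hlt n)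
    have hex : ∃ n, b < ((S n).1.2 y).2 := ⟨b + 1, hge (b + 1)⟩
    obtain ⟨m, hm1, hm2⟩ : ∃ m, ((S m).1.2 y).2 ≤ b ∧ b < ((S (m + 1)).1.2 y).2 := by
      have h0 : Nat.find hex ≠ 0 := by
        intro h
        have h1 := Nat.find_spec hex
        rw [h] at h1
        exact absurd h1 (Nat.not_lt_zero _)
      obtain ⟨m, hm⟩ := Nat.exists_eq_succ_of_ne_zero h0
      refine ⟨m, not_lt.1 (Nat.find_min hex (by omega)), ?_⟩
      have h1 := Nat.find_spec hex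
      rw [hm] at h1
      exact h1
    have hinv := (S m).2
    have hym := hqn m y hy
    have h1 := (hinv.ok y hym).rd y (hinv.mem y hym) ((S (m + 1)).1.2 y).2 y (hEm y hy m)
      (fun _ _ => rfl) b hm2
    have h2 := (hinv.ok y hym).typ y (hinv.mem y hym) b (hinv.res y hym b hb hm1)
    exact h1.trans h2

end Pool.Agent.MG.H29
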